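import Pool.Agent.SZT.StmtsB

/-!
# SZT, block B, row GAU: the Gauss norm of the norm form (helper9)
-/

set_option autoImplicit false

noncomputable section

open Polynomial H58Q

namespace Pool.Agent.SZT.H9

variable {L : Type} [NormedField L]

/-- `i` is the largest index at which the coefficients of `p` attain the maximal norm `g`. -/
structure Top (p : L[X]) (i : ℕ) (g : ℝ) : Prop where
  eq : ‖p.coeff i‖ = g
  le : ∀ k, ‖p.coeff k‖ ≤ g
  lt : ∀ k, i < k → ‖p.coeff k‖ < g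

theorem Top.uniq {p : L[X]} {i j : ℕ} {g h : ℝ} (H : Top p i g) (H' : Top p j h) : g = h :=
  le_antisymm (by rw [← H.eq]; exact H'.le _) (by rw [← H'.eq]; exact H.le _)

theorem top_exists {p : L[X]} (hp : p ≠ 0) : ∃ i g, 0 < g ∧ Top p i g := by
  classical
  have hne : p.support.Nonempty := support_nonempty.2 hp
  obtain ⟨m, hm, hmax⟩ := p.support.exists_max_image (fun i => ‖p.coeff i‖) hne
  have hm0 : 0 < ‖p.coeff m‖ := norm_pos_iff.2 (mem_support_iff.1 hm)
  have hle : ∀ k, ‖p.coeff k‖ ≤ ‖p.coeff m‖ := by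
    intro k
    by_cases hk : k ∈ p.support
    · exact hmax k hk
    · rw [notMem_support_iff.1 hk, norm_zero]
      exact hm0.le
  have hne' : (p.support.filter fun i => ‖p.coeff i‖ = ‖p.coeff m‖).Nonempty :=
    ⟨m, Finset.mem_filter.2 ⟨hm, rfl⟩⟩
  obtain ⟨i, hi, himax⟩ := Finset.exists_max_image _ id hne'
  refine ⟨i, ‖p.coeff m‖, hm0, (Finset.mem_filter.1 hi).2, hle, fun k hk => ?_⟩
  refine lt_of_le_of_ne (hle k) fun h => ?_
  have hks : k ∈ p.support := by
    rw [mem_support_iff, ← norm_pos_iff, h]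
    exact hm0
  have := himax k (Finset.mem_filter.2 ⟨hks, h⟩)
  simp only [id] at this
  omega

variable [IsUltrametricDist L]

theorem nsum_lt {ι : Type} (s : Finset ι) (F : ι → L) {c : ℝ} (hc : 0 < c)
    (h : ∀ i ∈ s, ‖F i‖ < c) : ‖∑ i ∈ s, F i‖ < c := by
  classical
  induction s using Finset.induction_on with
  | empty => simpa using hc
  | insert a s ha ih =>
    rw [Finset.sum_insert ha]
    exact lt_of_le_of_lt (IsUltrametricDist.norm_add_le_max _ _) (max_lt (h a (by simp))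
      (ih fun i hi => h i (by simp [hi])))

theorem nsum_le {ι : Type} (s : Finset ι) (F : ι → L) {c : ℝ} (hc : 0 ≤ c)
    (h : ∀ i ∈ s, ‖F i‖ ≤ c) : ‖∑ i ∈ s, F i‖ ≤ c := by
  classical
  induction s using Finset.induction_on with
  | empty => simpa using hc
  | insert a s ha ih =>
    rw [Finset.sum_insert ha]
    exact le_trans (IsUltrametricDist.norm_add_le_max _ _) (max_le (h a (by simp))
      (ih fun i hi => h i (by simp [hi])))

theorem nadd_eq {a b : L} (h : ‖b‖ < ‖a‖) : ‖a + b‖ = ‖a‖ := by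
  refine le_antisymm (le_trans (IsUltrametricDist.norm_add_le_max _ _) (max_le le_rfl h.le)) ?_
  by_contra h1
  rw [not_le] at h1
  have h2 : ‖a‖ ≤ max ‖a + b‖ ‖b‖ := by
    have h3 := IsUltrametricDist.norm_add_le_max (a + b) (-b)
    rw [add_neg_cancel_right, norm_neg] at h3
    exact h3
  exact absurd h2 (not_le.2 (max_lt h1 h))

theorem Top.mul {p q : L[X]} {i j : ℕ} {g h : ℝ} (H : Top p i g) (H' : Top q j h) (hg : 0 < g)
    (hh : 0 < h) : Top (p * q) (i + j) (g * h) := by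
  have hgh : 0 < g * h := mul_pos hg hh
  have hlt : ∀ a b : ℕ, i < a ∨ j < b → ‖p.coeff a * q.coeff b‖ < g * h := by
    intro a b hab
    rw [norm_mul]
    rcases hab with ha | hb
    · calc ‖p.coeff a‖ * ‖q.coeff b‖ ≤ ‖p.coeff a‖ * h :=
          mul_le_mul_of_nonneg_left (H'.le b) (norm_nonneg _)
        _ < g * h := mul_lt_mul_of_pos_right (H.lt a ha) hh
    · calc ‖p.coeff a‖ * ‖q.coeff b‖ ≤ g * ‖q.coeff b‖ :=
          mul_le_mul_of_nonneg_right (H.le a) (norm_nonneg _)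
        _ < g * h := mul_lt_mul_of_pos_left (H'.lt b hb) hg
  refine ⟨?_, fun k => ?_, fun k hk => ?_⟩
  · rw [coeff_mul, ← Finset.add_sum_erase _ _ (show (i, j) ∈ Finset.HasAntidiagonal.antidiagonal (i + j) by
      simp)]
    have h1 : ‖p.coeff i * q.coeff j‖ = g * h := by rw [norm_mul, H.eq, H'.eq]
    show ‖p.coeff i * q.coeff j + _‖ = g * h
    rw [nadd_eq, h1]
    rw [h1]
    refine nsum_lt _ _ hgh fun x hx => hlt _ _ ?_
    rw [Finset.mem_erase, Finset.HasAntidiagonal.mem_antidiagonal] at hx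
    by_contra hcon
    rw [not_or, not_lt, not_lt] at hcon
    exact hx.1 (Prod.ext (by show x.1 = i; omega) (by show x.2 = j; omega))
  · rw [coeff_mul]
    refine nsum_le _ _ hgh.le fun x _ => ?_
    rw [norm_mul]
    exact mul_le_mul (H.le _) (H'.le _) (norm_nonneg _) hg.le
  · rw [coeff_mul]
    refine nsum_lt _ _ hgh fun x hx => hlt _ _ ?_
    rw [Finset.HasAntidiagonal.mem_antidiagonal] at hx
    omega

theorem Top.sub {p q : L[X]} {i j : ℕ} {g h : ℝ} (H : Top p i g) (H' : Top q j h) (hij : i ≠ j) :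
    ∃ l, Top (p - q) l (max g h) := by
  have key : ∀ k, ‖(p - q).coeff k‖ ≤ max ‖p.coeff k‖ ‖q.coeff k‖ := by
    intro k
    rw [coeff_sub, sub_eq_add_neg, ← norm_neg (q.coeff k)]
    exact IsUltrametricDist.norm_add_le_max _ _
  have hle : ∀ k, ‖(p - q).coeff k‖ ≤ max g h := fun k =>
    (key k).trans (max_le_max (H.le k) (H'.le k))
  have e1 : ∀ k, ‖q.coeff k‖ < ‖p.coeff k‖ → ‖(p - q).coeff k‖ = ‖p.coeff k‖ := by
    intro k hk
    rw [coeff_sub, sub_eq_add_neg]
    exact nadd_eq (by rwa [norm_neg])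
  have e2 : ∀ k, ‖p.coeff k‖ < ‖q.coeff k‖ → ‖(p - q).coeff k‖ = ‖q.coeff k‖ := by
    intro k hk
    rw [coeff_sub, norm_sub_rev, sub_eq_add_neg]
    exact nadd_eq (by rwa [norm_neg])
  rcases lt_trichotomy g h with hgh | hgh | hgh
  · rw [max_eq_right hgh.le] at hle ⊢
    refine ⟨j, ?_, hle, fun k hk => ?_⟩
    · rw [e2 j (by rw [H'.eq]; exact lt_of_le_of_lt (H.le j) hgh), H'.eq]
    · exact lt_of_le_of_lt (key k) (max_lt (lt_of_le_of_lt (H.le k) hgh) (H'.lt k hk))
  · subst hgh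
    rw [max_self] at hle ⊢
    rcases lt_or_gt_of_ne hij with h1 | h1
    · refine ⟨j, ?_, hle, fun k hk => ?_⟩
      · rw [e2 j (by rw [H'.eq]; exact H.lt j h1), H'.eq]
      · exact lt_of_le_of_lt (key k) (max_lt (H.lt k (h1.trans hk)) (H'.lt k hk))
    · refine ⟨i, ?_, hle, fun k hk => ?_⟩
      · rw [e1 i (by rw [H.eq]; exact H'.lt i h1), H.eq]
      · exact lt_of_le_of_lt (key k) (max_lt (H.lt k hk) (H'.lt k (h1.trans hk)))
  · rw [max_eq_left hgh.le] at hle ⊢
    refine ⟨i, ?_, hle, fun k hk => ?_⟩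
    · rw [e1 i (by rw [H.eq]; exact lt_of_le_of_lt (H'.le i) hgh), H.eq]
    · exact lt_of_le_of_lt (key k) (max_lt (H.lt k hk) (lt_of_le_of_lt (H'.le k) hgh))

omit [IsUltrametricDist L] in
theorem top_lin (a : L) : ∃ l, Top (X - C a : L[X]) l (max 1 ‖a‖) := by
  have h1 : ‖(X - C a : L[X]).coeff 1‖ = 1 := by simp [coeff_X]
  have h0 : ‖(X - C a : L[X]).coeff 0‖ = ‖a‖ := by simp [coeff_X]
  have h2 : ∀ k, 1 < k → ‖(X - C a : L[X]).coeff k‖ = 0 := by
    intro k hk
    rw [coeff_sub, coeff_X, if_neg (by omega), coeff_C, if_neg (by omega), sub_zero, norm_zero]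
  have hle : ∀ k, ‖(X - C a : L[X]).coeff k‖ ≤ max 1 ‖a‖ := by
    intro k
    rcases k with _ | k
    · rw [h0]; exact le_max_right _ _
    rcases k with _ | k
    · rw [h1]; exact le_max_left _ _
    · rw [h2 _ (by omega)]; exact le_trans zero_le_one (le_max_left _ _)
  rcases le_or_gt ‖a‖ 1 with ha | ha
  · refine ⟨1, ?_, hle, fun k hk => ?_⟩
    · rw [h1, max_eq_left ha]
    · rw [h2 k hk]
      exact lt_of_lt_of_le zero_lt_one (le_max_left _ _)
  · refine ⟨0, ?_, hle, fun k hk => ?_⟩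
    · rw [h0, max_eq_right ha.le]
    · rw [max_eq_right ha.le]
      rcases Nat.lt_or_ge 1 k with h | h
      · rw [h2 k h]; exact lt_trans zero_lt_one ha
      · rw [show k = 1 by omega, h1]; exact ha

theorem top_prod (s : Multiset L) :
    0 < (s.map fun a => max 1 ‖a‖).prod ∧
      ∃ l, Top (s.map fun a => (X - C a : L[X])).prod l (s.map fun a => max 1 ‖a‖).prod := by
  induction s using Multiset.induction_on with
  | empty =>
    simp only [Multiset.map_zero, Multiset.prod_zero]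
    refine ⟨zero_lt_one, 0, by simp, fun k => ?_, fun k hk => ?_⟩
    · rw [coeff_one]
      split_ifs <;> simp
    · rw [coeff_one, if_neg (by omega), norm_zero]
      exact zero_lt_one
  | cons a s ih =>
    obtain ⟨h0, l, hl⟩ := ih
    obtain ⟨l', hl'⟩ := top_lin a
    have ha : (0 : ℝ) < max 1 ‖a‖ := lt_of_lt_of_le zero_lt_one (le_max_left _ _)
    rw [Multiset.map_cons, Multiset.prod_cons, Multiset.map_cons, Multiset.prod_cons]
    exact ⟨mul_pos ha h0, _, hl'.mul hl ha h0⟩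

theorem gau : B.GauStmt := by
  intro L _ _ f α β A κ hf hodd hint hA hs hκ h
  have hκ' : 0 < ‖κ‖ := norm_pos_iff.2 hκ
  obtain ⟨hP0, l, hl⟩ := top_prod A.roots
  rw [← hs.eq_prod_roots_of_monic hA] at hl
  have hκt : Top (C κ : L[X]) 0 ‖κ‖ := by
    refine ⟨by simp, fun k => ?_, fun k hk => ?_⟩
    · rw [coeff_C]
      split_ifs
      · exact le_rfl
      · rw [norm_zero]; exact hκ'.le
    · rw [coeff_C, if_neg (by omega), norm_zero]
      exact hκ'
  have hR := hκt.mul hl hκ' hP0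
  have hf1 : Top f f.natDegree 1 := by
    refine ⟨?_, hint, fun k hk => ?_⟩
    · rw [hf.coeff_natDegree, norm_one]
    · rw [coeff_eq_zero_of_natDegree_lt hk, norm_zero]
      exact zero_lt_one
  have hne : C κ * A ≠ 0 := mul_ne_zero (C_ne_zero.2 hκ) hA.ne_zero
  by_cases hα : α = 0
  · have hβ : β ≠ 0 := by
      rintro rfl
      apply hne
      rw [← h, hα]
      simp
    obtain ⟨j, b, hb, hβt⟩ := top_exists hβ
    have h1 := hf1.mul (hβt.mul hβt hb hb) zero_lt_one (mul_pos hb hb)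
    have h2 : ‖β.coeff j‖ ^ 2 = ‖κ‖ * (A.roots.map fun a => max 1 ‖a‖).prod := by
      rw [hβt.eq, sq]
      have h3 : C κ * A = -(f * (β * β)) := by
        rw [← h, hα]
        ring
      rw [h3] at hR
      have h4 : Top (-(f * (β * β))) (f.natDegree + (j + j)) (1 * (b * b)) := by
        refine ⟨?_, fun k => ?_, fun k hk => ?_⟩
        · rw [coeff_neg, norm_neg]; exact h1.eq
        · rw [coeff_neg, norm_neg]; exact h1.le k
        · rw [coeff_neg, norm_neg]; exact h1.lt k hk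
      rw [← h4.uniq hR, one_mul]
    refine ⟨β.coeff j, ?_, h2, fun i => ?_, fun i => ?_⟩
    · rw [← norm_pos_iff, hβt.eq]; exact hb
    · rw [hα, coeff_zero, norm_zero]; exact norm_nonneg _
    · rw [hβt.eq]; exact hβt.le i
  obtain ⟨i, a, ha, hαt⟩ := top_exists hα
  by_cases hβ : β = 0
  · have h1 := hαt.mul hαt ha ha
    have h2 : ‖α.coeff i‖ ^ 2 = ‖κ‖ * (A.roots.map fun a => max 1 ‖a‖).prod := by
      rw [hαt.eq, sq]
      have h3 : C κ * A = α * α := by
        rw [← h, hβ]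
        ring
      rw [h3] at hR
      exact h1.uniq hR
    refine ⟨α.coeff i, ?_, h2, fun k => ?_, fun k => ?_⟩
    · rw [← norm_pos_iff, hαt.eq]; exact ha
    · rw [hαt.eq]; exact hαt.le k
    · rw [hβ, coeff_zero, norm_zero]; exact norm_nonneg _
  obtain ⟨j, b, hb, hβt⟩ := top_exists hβ
  have h1 := hαt.mul hαt ha ha
  have h2 := hf1.mul (hβt.mul hβt hb hb) zero_lt_one (mul_pos hb hb)
  obtain ⟨m, hm⟩ := h1.sub h2 (by
    intro h3
    obtain ⟨d, hd⟩ := hodd
    omega)
  have h3 : α * α - f * (β * β) = C κ * A := by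
    rw [← h]
    ring
  rw [h3] at hm
  have h4 := hm.uniq hR
  rw [one_mul] at h4
  rcases le_total b a with hab | hab
  · refine ⟨α.coeff i, ?_, ?_, fun k => ?_, fun k => ?_⟩
    · rw [← norm_pos_iff, hαt.eq]; exact ha
    · rw [hαt.eq, ← h4, sq, max_eq_left (mul_self_le_mul_self hb.le hab)]
    · rw [hαt.eq]; exact hαt.le k
    · rw [hαt.eq]; exact (hβt.le k).trans hab
  · refine ⟨β.coeff j, ?_, ?_, fun k => ?_, fun k => ?_⟩
    · rw [← norm_pos_iff, hβt.eq]; exact hb
    · rw [hβt.eq, ← h4, sq, max_eq_right (mul_self_le_mul_self ha.le hab)]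
    · rw [hβt.eq]; exact (hαt.le k).trans hab
    · rw [hβt.eq]; exact hβt.le k

end Pool.Agent.SZT.H9
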